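import Pool.Agent.Lib.MP_a6ff19_al.Bridge

set_option autoImplicit false

namespace Pool.Agent.Variants.MP_a6ff19_al.Product

open Pool.Agent.Lib.MP_a6ff19_al

/-- If two groups are graphically discrete and the second one has no infinite finitely generated
commensurated subgroup with property (FH), then their direct product is graphically discrete. -/
theorem result (Γ Γ' : Type) [Group Γ] [Group Γ'] (h : GraphicallyDiscrete Γ)
    (h' : GraphicallyDiscrete Γ')
    (hH : ∀ B : Subgroup Γ', B.FG → Subgroup.Commensurable.commensurator B = ⊤ → PropertyFH B →
      Finite B) : GraphicallyDiscrete (Γ × Γ') :=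
  product_gd Γ Γ' h h' hH

end Pool.Agent.Variants.MP_a6ff19_al.Product
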